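import Pool.Agent.W295.PR.Stm

set_option autoImplicit false

namespace Pool.Agent.W903.PR.RAISE

open Pool.Agent.W295.PR

variable {R : Type} [AddCommGroup R] {G : Type} [Group G]

theorem mono (h1 : S_PG) (RF : ℕ → AddSubgroup R) (GF : ℕ → Subgroup G) (hF : Filt GF) (n : ℕ)
    (l : ℕ) (f : R → G) : ∀ m, IsPoly RF GF n (l + m) f → IsPoly RF GF n l f
  | 0, h => h
  | m + 1, h => mono h1 RF GF hF n l f m ((h1 R G RF GF hF n).1 (l + m) f h)

theorem anti_le (RF : ℕ → AddSubgroup R) (h : ∀ j, RF (j + 1) ≤ RF j) (j : ℕ) (x : R)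
    (hx : x ∈ RF (j + 1)) : x ∈ RF j := h j hx

theorem main (h1 : S_PG) (h2 : S_COMP) : S_RAISE := by
  intro R _ G _ RF GF hF htop hanti ψ hadd hψ n
  have hψ' : ∀ j, 1 ≤ j → ∀ h ∈ RF j, ψ h ∈ RF j := by
    intro j hj h hh
    have h3 : ψ h = h + (ψ h - h) := by abel
    rw [h3]
    exact (RF j).add_mem hh (hanti j (hψ j hj h hh))
  induction n with
  | zero =>
    intro l f hf x
    have hx : x ∈ RF 1 := by rw [htop]; trivial
    have h3 := hf.2 2 (by norm_num) (ψ x - x) (hψ 1 le_rfl x hx) x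
    have h4 : dd (ψ x - x) f x = f (ψ x) * (f x)⁻¹ := by
      unfold dd
      rw [add_sub_cancel]
    rw [h4] at h3
    exact hF.anti (l + 1) h3
  | succ n ih =>
    intro l f hf
    obtain ⟨P1, P2, P3, P4, P5⟩ := h1 R G RF GF hF n
    have hF0 : IsPoly RF GF n (l + 1) (fun x => f (ψ x) * (f x)⁻¹) := ih l f hf.1
    refine ⟨hF0, ?_⟩
    intro j hj h hh
    have hk : IsPoly RF GF (n + 1) (l + j) (dd h f) := hf.2 j hj h hh
    have hA0 : IsPoly RF GF (n + 1) (l + (j + 1)) (dd (ψ h - h) f) :=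
      hf.2 (j + 1) (by omega) (ψ h - h) (hψ j hj h hh)
    have hA1 : IsPoly RF GF n (l + (j + 1)) (fun x => dd (ψ h - h) f (x + h)) :=
      P5 _ _ h hA0.1
    have hA : IsPoly RF GF n (l + (j + 1)) (fun x => dd (ψ h - h) f (ψ x + h)) :=
      h2 R R G RF RF GF ψ hadd hψ' n _ _ hA1
    have hB : IsPoly RF GF n (l + j + 1) (fun x => dd h f (ψ x) * (dd h f x)⁻¹) := ih _ _ hk
    have hC0 := P4 (l + j) (l + 1) (dd h f) (fun x => f (ψ x) * (f x)⁻¹) hk.1 hF0
    have hC : IsPoly RF GF n (l + 1 + j)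
        (dd h f * (fun x => f (ψ x) * (f x)⁻¹) * (dd h f)⁻¹ *
          (fun x => f (ψ x) * (f x)⁻¹)⁻¹) := by
      have h5 : l + j + (l + 1) = (l + 1 + j) + l := by ring
      rw [h5] at hC0
      exact mono h1 RF GF hF n _ _ l hC0
    have h6 : l + (j + 1) = l + 1 + j := by ring
    have h7 : l + j + 1 = l + 1 + j := by ring
    rw [h6] at hA
    rw [h7] at hB
    have h8 := P2 _ _ _ (P2 _ _ _ hA hB) hC
    have h9 : dd h (fun x => f (ψ x) * (f x)⁻¹) =
        (fun x => dd (ψ h - h) f (ψ x + h)) * (fun x => dd h f (ψ x) * (dd h f x)⁻¹) *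
        (dd h f * (fun x => f (ψ x) * (f x)⁻¹) * (dd h f)⁻¹ *
          (fun x => f (ψ x) * (f x)⁻¹)⁻¹) := by
      funext x
      simp only [Pi.mul_apply, Pi.inv_apply, dd, hadd]
      have h10 : ψ x + h + (ψ h - h) = ψ x + ψ h := by abel
      rw [h10]
      group
    rw [h9]
    exact h8

end Pool.Agent.W903.PR.RAISE
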